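import Mathlib
import Pool.Agent.R170.DataU

/-!
Every edge-unfolding net of the unit cube admits a uniform rep-cube.
-/

namespace Pool.Agent.Results.MP_0163eb_co.UniformRepCubes

open Pool.Agent.Helper697.Rep Pool.Agent.R170.Net

/-- the conclusion for one net -/
lemma make {k t w h : ℕ} {P E : List (ℤ × ℤ)} {X : List Pc}
    (hF : ∃ r : ℝ, 0 ≤ r ∧ r * r = k ∧ FoldsOnto r P.toFinset ∧ IsPolyomino P.toFinset)
    (hC : P.Nodup ∧ partB P X = true ∧ holesB w h P E = true ∧ X.length = k ∧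
      (X.all fun x => decide (typ x.i = t)) = true) (hk : 2 ≤ k) {i : ℕ} (hi : i < 20)
    (hit : typ i = t) {N : Finset (ℤ × ℤ)} (hN : SameOneSided (netL i).toFinset N) :
    ∃ k : ℕ, 2 ≤ k ∧ ∃ P : Finset (ℤ × ℤ), IsPolyomino P ∧ NoHoles P ∧ P.card = 6 * k ∧
      FoldsOnto (√k) P ∧ ∃ Q : Finset (Finset (ℤ × ℤ)), Q.card = k ∧
        (∀ A ∈ Q, ∀ B ∈ Q, A ≠ B → Disjoint A B) ∧ Q.biUnion id = P ∧
        ∀ A ∈ Q, IsEdgeNet A ∧ Congruent N A := by
  obtain ⟨r, hr, hrr, hf, hp⟩ := hF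
  obtain ⟨hnd, hpart, hh, hl, ht⟩ := hC
  have er : √(k : ℝ) = r := by rw [← hrr, Real.sqrt_mul_self hr]
  obtain ⟨Q, hc, hd, hu, he, hQ, -⟩ := part_of hnd hpart
  simp only [partB, Bool.and_eq_true, List.all_eq_true, decide_eq_true_eq] at hpart ht
  have hpc := hpart.1
  refine ⟨k, hk, P.toFinset, hp, noHoles_of hh, ?_, by rw [er]; exact hf, Q, by rw [hc, hl], hd,
    hu, ?_⟩
  · rw [List.toFinset_card_of_nodup hnd, Nat.eq_of_beq_eq_true hpart.2.2.1, hl]
  · intro A hA
    refine ⟨he A hA, ?_⟩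
    obtain ⟨x, hx, rfl⟩ := hQ A hA
    have h1 : Congruent (netL i).toFinset (netL x.i).toFinset :=
      typ_congr hi (Pc.ilt (hpc x hx)) (by rw [hit, ht x hx])
    exact (hN.congr.symm.trans h1).trans (Pc.same (hpc x hx)).congr

/-- For every edge-unfolding net `N` of the unit cube there are `k ≥ 2` and a polyomino `P`
without holes, of area `6 k`, that folds onto the surface of the cube of edge `√k` and is divided
into `k` pieces, each of which is an edge-unfolding net of the unit cube congruent to `N`. -/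
theorem result : ∀ N : Finset (ℤ × ℤ), IsEdgeNet N →
    ∃ k : ℕ, 2 ≤ k ∧ ∃ P : Finset (ℤ × ℤ), IsPolyomino P ∧ NoHoles P ∧ P.card = 6 * k ∧
      FoldsOnto (√k) P ∧ ∃ Q : Finset (Finset (ℤ × ℤ)), Q.card = k ∧
        (∀ A ∈ Q, ∀ B ∈ Q, A ≠ B → Disjoint A B) ∧ Q.biUnion id = P ∧
        ∀ A ∈ Q, IsEdgeNet A ∧ Congruent N A := by
  intro N hN
  obtain ⟨n, hn, hnN⟩ := classify hN
  obtain ⟨i, hi, rfl⟩ := netL_mem n hn
  have c0 := fun h : typ i = 0 => make (by exact_mod_cast t0F) t0C (by norm_num) hi h hnN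
  have c1 := fun h : typ i = 1 => make (by exact_mod_cast t1F) t1C (by norm_num) hi h hnN
  have c2 := fun h : typ i = 2 => make (by exact_mod_cast t2F) t2C (by norm_num) hi h hnN
  have c3 := fun h : typ i = 3 => make (by exact_mod_cast t3F) t3C (by norm_num) hi h hnN
  have c4 := fun h : typ i = 4 => make (by exact_mod_cast t4F) t4C (by norm_num) hi h hnN
  have c5 := fun h : typ i = 5 => make (by exact_mod_cast t5F) t5C (by norm_num) hi h hnN
  have c6 := fun h : typ i = 6 => make (by exact_mod_cast t6F) t6C (by norm_num) hi h hnN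
  have c7 := fun h : typ i = 7 => make (by exact_mod_cast t7F) t7C (by norm_num) hi h hnN
  have c8 := fun h : typ i = 8 => make (by exact_mod_cast t8F) t8C (by norm_num) hi h hnN
  have c9 := fun h : typ i = 9 => make (by exact_mod_cast t9F) t9C (by norm_num) hi h hnN
  have c10 := fun h : typ i = 10 => make (by exact_mod_cast t10F) t10C (by norm_num) hi h hnN
  have h11 : ∀ i < 20, typ i < 11 := by decide
  have := h11 i hi
  generalize typ i = j at *
  interval_cases j
  · exact c0 rfl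
  · exact c1 rfl
  · exact c2 rfl
  · exact c3 rfl
  · exact c4 rfl
  · exact c5 rfl
  · exact c6 rfl
  · exact c7 rfl
  · exact c8 rfl
  · exact c9 rfl
  · exact c10 rfl

end Pool.Agent.Results.MP_0163eb_co.UniformRepCubes
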